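import Mathlib

namespace Pool.Agent.Results.MP_b9ac25_al.Lcs

open Subgroup
open scoped commutatorElement

universe u v

abbrev L (G : Type*) [Group G] (n : ℕ) : Subgroup G := (⊤ : Subgroup G).lowerCentralSeries n

lemma L_map {G H : Type*} [Group G] [Group H] (f : G →* H) (n : ℕ) : L G n ≤ (L H n).comap f := by
  rw [← map_le_iff_le_comap, map_lowerCentralSeries]
  exact lowerCentralSeries_mono n le_top

lemma L_surj {G H : Type*} [Group G] [Group H] (f : G →* H) (hf : Function.Surjective f) (n : ℕ) :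
    (L G n).map f = L H n := by
  rw [map_lowerCentralSeries, map_top_of_surjective f hf]

lemma grun {Q : Type*} [Group Q] {a : Q} (h : ∀ x, ⁅a, x⁆ ∈ center Q) {v : Q}
    (hv : v ∈ L Q 1) : a * v = v * a := by
  let f : Q →* center Q := MonoidHom.mk' (fun x => ⟨⁅a, x⁆, h x⟩) (by
    intro x y
    apply Subtype.ext
    have := mem_center_iff.1 (h y) x
    change ⁅a, x * y⁆ = ⁅a, x⁆ * ⁅a, y⁆
    calc ⁅a, x * y⁆ = ⁅a, x⁆ * (x * ⁅a, y⁆) * x⁻¹ := by simp only [commutatorElement_def]; group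
      _ = _ := by rw [this]; group)
  have h2 : L Q 1 ≤ f.ker := commutator_le.2 (fun x _ y _ => by
    rw [MonoidHom.mem_ker, map_commutatorElement, commutatorElement_eq_one_iff_mul_comm]
    exact Subtype.ext (mem_center_iff.1 (h y) _))
  exact commutatorElement_eq_one_iff_mul_comm.1 (congrArg Subtype.val (h2 hv))

lemma key {N : Type*} [Group N] (η : N →* N) (h : ∀ x, x⁻¹ * η x ∈ L N 1) (i : ℕ) :
    ∀ x ∈ L N i, x⁻¹ * η x ∈ L N (i + 1) := by
  induction i with
  | zero => exact fun x _ => h x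
  | succ i ih =>
    let π := QuotientGroup.mk' (L N (i + 2))
    have hc : ∀ u ∈ L N (i + 1), π u ∈ center _ := by
      intro u hu
      rw [mem_center_iff]
      intro g
      obtain ⟨g, rfl⟩ := QuotientGroup.mk'_surjective _ g
      symm
      rw [← commutatorElement_eq_one_iff_mul_comm, ← map_commutatorElement]
      exact (QuotientGroup.eq_one_iff _).2 (commutator_mem_commutator hu (mem_top g))
    have : L N (i + 1) ≤ π.eqLocus (π.comp η) := by
      refine commutator_le.2 (fun a ha b _ => ?_)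
      have h1 := mem_center_iff.1 (hc _ (ih a ha))
      have h2 : π a * π (b⁻¹ * η b) = π (b⁻¹ * η b) * π a := grun (fun x => by
        obtain ⟨g, rfl⟩ := QuotientGroup.mk'_surjective _ x
        rw [← map_commutatorElement]
        exact hc _ (commutator_mem_commutator ha (mem_top g))) (L_map π 1 (h b))
      change π ⁅a, b⁆ = π (η ⁅a, b⁆)
      have e1 : π (η a) = π a * π (a⁻¹ * η a) := by rw [← map_mul]; simp
      have e2 : π (η b) = π b * π (b⁻¹ * η b) := by rw [← map_mul]; simp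
      rw [map_commutatorElement, map_commutatorElement, map_commutatorElement, e1, e2]
      generalize π (a⁻¹ * η a) = u at *
      generalize π (b⁻¹ * η b) = v at *
      simp only [commutatorElement_def]
      calc π a * π b * (π a)⁻¹ * (π b)⁻¹ = π a * π b * (π a)⁻¹ * (π a * v) * (π a)⁻¹ * v⁻¹ *
            (π b)⁻¹ * (π b * (v * π a * v⁻¹ * (π a)⁻¹) * (π b)⁻¹) := by group
        _ = π a * (π b * v * u) * u⁻¹ * (π a)⁻¹ * v⁻¹ * (π b)⁻¹ := by rw [← h2]; group
        _ = _ := by rw [h1]; group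
    intro x hx
    exact QuotientGroup.eq.1 (this hx)

lemma bij {N : Type*} [Group N] {n : ℕ} (hn : L N n = ⊥) (η : N →* N)
    (h : ∀ x, x⁻¹ * η x ∈ L N 1) : Function.Bijective η := by
  constructor
  · rw [injective_iff_map_eq_one]
    intro x hx
    have : ∀ i, x ∈ L N i := by
      intro i
      induction i with
      | zero => exact mem_top x
      | succ i ih => simpa [hx] using key η h i x ih
    exact mem_bot.1 (hn ▸ this n)
  · intro y
    have : ∀ i, ∃ x, (η x)⁻¹ * y ∈ L N i := by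
      intro i
      induction i with
      | zero => exact ⟨1, mem_top _⟩
      | succ i ih =>
        obtain ⟨x, hx⟩ := ih
        refine ⟨x * ((η x)⁻¹ * y), ?_⟩
        have := inv_mem (key η h i _ hx)
        simpa [mul_assoc] using this
    obtain ⟨x, hx⟩ := this n
    exact ⟨x, inv_mul_eq_one.1 (mem_bot.1 (hn ▸ hx))⟩

lemma free_bij {X : Type*} (j : ℕ) (θ : FreeGroup X ⧸ L _ j →* FreeGroup X ⧸ L _ j)
    (ha : ∀ n, θ n ∈ L _ 1 → n ∈ L _ 1) (hb : ∀ n, ∃ m, n⁻¹ * θ m ∈ L _ 1) :
    Function.Bijective θ := by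
  have hn : L (FreeGroup X ⧸ L _ j) j = ⊥ := by
    rw [← L_surj _ (QuotientGroup.mk'_surjective _), Subgroup.map_eq_bot_iff,
      QuotientGroup.ker_mk']
  choose m hm using hb
  let ψ : FreeGroup X ⧸ L _ j →* FreeGroup X ⧸ L _ j :=
    QuotientGroup.lift _ (FreeGroup.lift (fun x => m (FreeGroup.of x : FreeGroup X)))
      (fun g hg => mem_bot.1 (hn ▸ L_map _ j hg))
  have h1 : ∀ n, n⁻¹ * θ (ψ n) ∈ L _ 1 := by
    have : QuotientGroup.mk' (L (FreeGroup X ⧸ L _ j) 1) =
        (QuotientGroup.mk' (L (FreeGroup X ⧸ L _ j) 1)).comp (θ.comp ψ) := by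
      ext x
      have e : ψ (FreeGroup.of x : FreeGroup X) = m (FreeGroup.of x : FreeGroup X) :=
        FreeGroup.lift_apply_of
      exact QuotientGroup.eq.2 (e ▸ hm (FreeGroup.of x : FreeGroup X) :
        _ * θ (ψ (FreeGroup.of x : FreeGroup X)) ∈ _)
    exact fun n => QuotientGroup.eq.1 (DFunLike.congr_fun this n)
  have h2 := bij hn (θ.comp ψ) h1
  have h3 := bij hn (ψ.comp θ) (fun n => ha _ (by simpa using h1 (θ n)))
  exact ⟨Function.Injective.of_comp (f := ψ) h3.1, Function.Surjective.of_comp (g := ψ) h2.2⟩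

lemma q1 {G : Type*} [Group G] (j : ℕ) (g : G) :
    (g : G ⧸ L G (j + 1)) ∈ L (G ⧸ L G (j + 1)) 1 ↔ g ∈ L G 1 := by
  refine ⟨fun h => ?_, fun h => L_map (QuotientGroup.mk' _) 1 h⟩
  rw [← L_surj _ (QuotientGroup.mk'_surjective _)] at h
  obtain ⟨a, ha, e⟩ := h
  have := Subgroup.lowerCentralSeries_antitone (⊤ : Subgroup G) (show 1 ≤ j + 1 by omega)
    (QuotientGroup.eq.1 e)
  simpa using mul_mem ha this

theorem result (Γ : Type u) [Group Γ] (X : Type v)
    (h : ∀ j : ℕ, Nonempty (Γ ⧸ (⊤ : Subgroup Γ).lowerCentralSeries j ≃*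
      FreeGroup X ⧸ (⊤ : Subgroup (FreeGroup X)).lowerCentralSeries j)) :
    ∃ φ : FreeGroup X →* Γ, ∀ j : ℕ,
      ∃ hj : (⊤ : Subgroup (FreeGroup X)).lowerCentralSeries j ≤
          ((⊤ : Subgroup Γ).lowerCentralSeries j).comap φ,
        Function.Bijective (QuotientGroup.map _ _ φ hj) := by
  obtain ⟨α⟩ := h 1
  let φ : FreeGroup X →* Γ := FreeGroup.lift (fun x => (α.symm (FreeGroup.of x : FreeGroup X)).out)
  have hφ : ∀ w, (φ w : Γ ⧸ L Γ 1) = α.symm (w : FreeGroup X) := by
    have : (QuotientGroup.mk' (L Γ 1)).comp φ = α.symm.toMonoidHom.comp (QuotientGroup.mk' _) := by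
      ext x
      have e : φ (FreeGroup.of x) = (α.symm (FreeGroup.of x : FreeGroup X)).out :=
        FreeGroup.lift_apply_of
      exact (congrArg _ e).trans (Quotient.out_eq _)
    exact fun w => DFunLike.congr_fun this w
  refine ⟨φ, fun j => ⟨L_map φ j, ?_⟩⟩
  obtain ⟨β⟩ := h j
  rw [← β.comp_bijective]
  refine free_bij j (β.toMonoidHom.comp (QuotientGroup.map _ _ φ (L_map φ j))) ?_ ?_
  · intro n hn
    obtain ⟨w, rfl⟩ := QuotientGroup.mk_surjective n
    cases j with
    | zero =>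
      rw [(QuotientGroup.eq_one_iff (N := L (FreeGroup X) 0) w).2 (mem_top w)]
      exact one_mem _
    | succ j =>
      have h1 : (φ w : Γ ⧸ L Γ (j + 1)) ∈ L _ 1 := 
        β.symm_apply_apply (φ w) ▸ L_map β.symm.toMonoidHom 1 hn
      rw [q1, ← QuotientGroup.eq_one_iff, hφ, map_eq_one_iff _ α.symm.injective,
        QuotientGroup.eq_one_iff] at h1
      exact (q1 j w).2 h1
  · intro n
    obtain ⟨g, hg⟩ := QuotientGroup.mk_surjective (β.symm n)
    obtain ⟨w, hw⟩ := QuotientGroup.mk_surjective (α g)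
    have h1 : g⁻¹ * φ w ∈ L Γ 1 := QuotientGroup.eq.1 (by rw [hφ, hw]; exact (α.symm_apply_apply _).symm)
    refine ⟨w, ?_⟩
    have := L_map (β.toMonoidHom.comp (QuotientGroup.mk' _)) 1 h1
    simpa [hg] using this

end Pool.Agent.Results.MP_b9ac25_al.Lcs
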